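import Pool.Agent.H27.MaxProg

/-! Infinitely many maximal progressions for two part sizes modulo four. -/

namespace Pool.Agent.Results.MP_c222f6_nt.Q1
open Pool.Agent.H27.MaxProg

theorem result : {x : ℕ × ℕ | IsMax 2 4 x.1 x.2}.Infinite := both.1

end Pool.Agent.Results.MP_c222f6_nt.Q1
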